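import Mathlib
import Pool.Agent.H389R3.LR5
import Pool.Agent.H388SL.DobC

/-!
# Heights of algebraic integers and embeddings that commute with complex conjugation
-/

set_option autoImplicit false

open Finset Polynomial Module IntermediateField

namespace Pool.Agent.H92FC

open Pool.Agent.H388SL Pool.Agent.H389R3.LR

lemma log_two_mul_le_sqrt {N : ℝ} (hN : 1 ≤ N) : Real.log (2 * N) ≤ 3 * Real.sqrt N := by
  have hs : 1 ≤ Real.sqrt N := by
    rw [show (1:ℝ) = Real.sqrt 1 by simp]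
    exact Real.sqrt_le_sqrt hN
  have h1 : Real.log (2 * N) = Real.log 2 + 2 * Real.log (Real.sqrt N) := by
    rw [Real.log_mul (by norm_num) (by linarith), Real.log_sqrt (by linarith)]
    ring
  have h2 := Real.log_le_sub_one_of_pos (show 0 < Real.sqrt N by linarith)
  have h3 := Real.log_two_lt_d9
  rw [h1]
  linarith

/-- the choice between the two lower bounds -/
lemma choice {c0 : ℝ} (hc0 : 0 < c0) : ∃ c : ℝ, 0 < c ∧ ∀ r N s : ℝ, 1 ≤ r → 1 ≤ N →
    min (1 / r ^ 2) (N / (r ^ 4 * Real.log (2 * N))) ≤ 1064960 * s →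
    c0 / (N * (Real.log (2 * N)) ^ 3) ≤ s → c / (r ^ 2 * (Real.log (2 * r)) ^ 2) ≤ s := by
  refine ⟨min (1 / 10 ^ 8) (c0 / 8), by positivity, ?_⟩
  intro r N s hr hN h1 h2
  set c := min (1 / 10 ^ 8) (c0 / 8) with hc
  have hc1 : c ≤ 1 / 10 ^ 8 := min_le_left _ _
  have hc2 : c ≤ c0 / 8 := min_le_right _ _
  have hcp : 0 < c := by positivity
  set l := Real.log (2 * r) with hl
  have hl2 : Real.log 2 ≤ l := Real.log_le_log (by norm_num) (by linarith)
  have hlog2 := Real.log_two_gt_d9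
  have hl0 : 0.69 < l := by linarith
  set LN := Real.log (2 * N) with hLN
  have hLN0 : 0.69 < LN := by
    have : Real.log 2 ≤ LN := Real.log_le_log (by norm_num) (by linarith)
    linarith
  have hr2 : 1 ≤ r ^ 2 := one_le_pow₀ hr
  rcases le_or_gt (r ^ 2) (N * l) with hcase | hcase
  · -- first case
    have key : (1 / 9 : ℝ) / (r ^ 2 * l ^ 2) ≤ min (1 / r ^ 2) (N / (r ^ 4 * LN)) := by
      apply le_min
      · rw [div_le_div_iff₀ (by positivity) (by positivity)]
        have : (1:ℝ) / 9 ≤ l ^ 2 := by nlinarith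
        nlinarith
      · rcases le_or_gt N (r ^ 4) with h4 | h4
        · have h5 : LN ≤ 4 * l := by
            have : LN ≤ Real.log ((2 * r) ^ 4) := by
              apply Real.log_le_log (by linarith)
              have : 0 ≤ r ^ 4 := by positivity
              nlinarith
            rw [Real.log_pow] at this
            push_cast at this
            exact this
          rw [div_le_div_iff₀ (by positivity) (by positivity)]
          -- 1/9 * (r^4 * LN) ≤ N * (r^2 * l^2)
          have h6 : r ^ 4 * LN ≤ r ^ 4 * (4 * l) := by gcongr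
          have h7 : r ^ 2 * (r ^ 2 * l) ≤ (N * l) * (r ^ 2 * l) := by gcongr
          nlinarith
        · have h5 : LN ≤ 3 * Real.sqrt N := log_two_mul_le_sqrt hN
          have h6 : r ^ 2 ≤ Real.sqrt N := by
            apply Real.le_sqrt_of_sq_le
            have : (r ^ 2) ^ 2 = r ^ 4 := by ring
            rw [this]; exact h4.le
          have h7 : Real.sqrt N * Real.sqrt N = N := Real.mul_self_sqrt (by linarith)
          rw [div_le_div_iff₀ (by positivity) (by positivity)]
          have h8 : r ^ 4 * LN ≤ r ^ 4 * (3 * Real.sqrt N) := by gcongr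
          have h9 : r ^ 2 * (r ^ 2 * Real.sqrt N) ≤ Real.sqrt N * (r ^ 2 * Real.sqrt N) := by gcongr
          have h10 : (0.47:ℝ) ≤ l ^ 2 := by nlinarith
          have h11 : N * r ^ 2 * 0.47 ≤ N * r ^ 2 * l ^ 2 := by gcongr
          nlinarith
    have h3 := key.trans h1
    have h4 : c / (r ^ 2 * l ^ 2) ≤ (1 / 10 ^ 8) / (r ^ 2 * l ^ 2) := by gcongr
    refine h4.trans ?_
    have e : (1 / 10 ^ 8 : ℝ) / (r ^ 2 * l ^ 2) = (9 / 10 ^ 8) * ((1 / 9 : ℝ) / (r ^ 2 * l ^ 2)) := by
      ring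
    have hs : 0 ≤ s := by
      have : 0 < (1 / 9 : ℝ) / (r ^ 2 * l ^ 2) := by positivity
      linarith
    rw [e]
    nlinarith
  · -- second case
    have h3 : LN ≤ 2 * l := by
      have h4 : N ≤ r ^ 2 / l := by
        rw [le_div_iff₀ (by linarith)]; exact hcase.le
      have h5 : r ^ 2 / l ≤ 2 * r ^ 2 := by
        rw [div_le_iff₀ (by linarith)]
        nlinarith
      have h6 : LN ≤ Real.log ((2 * r) ^ 2) := by
        apply Real.log_le_log (by linarith)
        nlinarith
      rw [Real.log_pow] at h6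
      push_cast at h6
      exact h6
    refine le_trans ?_ h2
    rw [div_le_div_iff₀ (by positivity) (by positivity)]
    have h4 : N * LN ^ 3 ≤ N * (2 * l) ^ 3 := by gcongr
    have h5 : N * l * (8 * l ^ 2) ≤ r ^ 2 * (8 * l ^ 2) := by gcongr
    calc c * (N * LN ^ 3) ≤ c * (N * (2 * l) ^ 3) := by gcongr
      _ = c * (N * l * (8 * l ^ 2)) := by ring
      _ ≤ c * (r ^ 2 * (8 * l ^ 2)) := by gcongr
      _ ≤ (c0 / 8) * (r ^ 2 * (8 * l ^ 2)) := by gcongr
      _ = c0 * (r ^ 2 * l ^ 2) := by ring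

variable {E : Type} [Field E] [NumberField E]

/-- the roots of the minimal polynomial as conjugates -/
lemma roots_minpoly {γ : E} (hγ : CInj γ) :
    ((minpoly ℚ γ).map (algebraMap ℚ ℂ)).roots =
      (Finset.univ : Finset (E →ₐ[ℚ] ℂ)).val.map (fun τ => τ γ) := by
  rw [minpoly_map_eq hγ, Finset.prod_eq_multiset_prod]
  have : (Finset.univ : Finset (E →ₐ[ℚ] ℂ)).val.map (fun τ => X - C (τ γ)) =
      ((Finset.univ : Finset (E →ₐ[ℚ] ℂ)).val.map (fun τ => τ γ)).map (fun z => X - C z) := by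
    rw [Multiset.map_map]; rfl
  rw [this, roots_multiset_prod_X_sub_C]

lemma minpoly_gen_eq (a : E) : minpoly ℚ (AdjoinSimple.gen ℚ a) = minpoly ℚ a := by
  have h := minpoly.algebraMap_eq (A := ℚ) (B := ℚ⟮a⟯) (B' := E)
    (algebraMap (ℚ⟮a⟯) E).injective (AdjoinSimple.gen ℚ a)
  rw [AdjoinSimple.algebraMap_gen] at h
  exact h.symm

lemma sum_gen (a : E) (F : ℂ → ℝ) :
    ∑ σ : ℚ⟮a⟯ →ₐ[ℚ] ℂ, F (σ (AdjoinSimple.gen ℚ a)) =
      (((minpoly ℚ a).map (algebraMap ℚ ℂ)).roots.map F).sum := by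
  have h := roots_minpoly (CInj_gen a)
  rw [minpoly_gen_eq] at h
  rw [h, Multiset.map_map]
  rfl

/-- the sum over the embeddings is a multiple of the sum over the conjugates -/
lemma sum_eq (a : E) (F : ℂ → ℝ) :
    (natDegree (minpoly ℚ a) : ℝ) * ∑ σ : E →ₐ[ℚ] ℂ, F (σ a) =
      (finrank ℚ E : ℝ) * (((minpoly ℚ a).map (algebraMap ℚ ℂ)).roots.map F).sum := by
  rw [sum_embeddings' a F, ← sum_gen a F, nsmul_eq_mul]
  have h1 : finrank ℚ ℚ⟮a⟯ = (minpoly ℚ a).natDegree :=
    adjoin.finrank (Algebra.IsIntegral.isIntegral a)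
  have h2 : finrank ℚ ℚ⟮a⟯ * finrank ℚ⟮a⟯ E = finrank ℚ E := finrank_mul_finrank ℚ ℚ⟮a⟯ E
  rw [← h2, ← h1]
  push_cast
  ring

lemma natDegree_pos' (a : E) : 0 < (minpoly ℚ a).natDegree :=
  minpoly.natDegree_pos (Algebra.IsIntegral.isIntegral a)

lemma lam_eq_of_minpoly {a b : E} (h : minpoly ℚ a = minpoly ℚ b) : lam a = lam b := by
  have h1 := sum_eq a (fun z => Real.log (max 1 ‖z‖))
  have h2 := sum_eq b (fun z => Real.log (max 1 ‖z‖))
  rw [h] at h1
  have h3 : (0:ℝ) < (minpoly ℚ b).natDegree := by exact_mod_cast natDegree_pos' b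
  rw [← h2] at h1
  exact mul_left_cancel₀ h3.ne' h1

lemma lam_mul_le (a b : E) : lam (a * b) ≤ lam a + lam b := by
  unfold lam
  rw [← Finset.sum_add_distrib]
  apply Finset.sum_le_sum
  intro σ _
  rw [← Real.log_mul (by positivity) (by positivity)]
  apply Real.log_le_log (by positivity)
  rw [map_mul, norm_mul]
  apply max_le
  · exact one_le_mul_of_one_le_of_one_le (le_max_left _ _) (le_max_left _ _)
  · exact mul_le_mul (le_max_right _ _) (le_max_right _ _) (norm_nonneg _) (by positivity)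

open Classical in
/-- the embeddings for which `b` becomes the complex conjugate of `a` -/
noncomputable def good (a b : E) : Finset (E →ₐ[ℚ] ℂ) :=
  Finset.univ.filter fun φ => φ b = starRingEnd ℂ (φ a)

lemma mem_good {a b : E} {φ : E →ₐ[ℚ] ℂ} : φ ∈ good a b ↔ φ b = starRingEnd ℂ (φ a) := by
  unfold good
  simp

/-- counting of the positive real conjugates of `a b` -/
lemma good_le {a b : E} (ha : a ≠ 0) :
    ((good a b).card : ℝ) * (minpoly ℚ (a * b)).natDegree ≤
      (finrank ℚ E : ℝ) *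
        ((posPart (conjSet (AdjoinSimple.gen ℚ (a * b)))).card : ℝ) := by
  classical
  set β := a * b with hβ
  have h1 := sum_eq β (fun z => if 0 < z.re ∧ z.im = 0 then (1:ℝ) else 0)
  have h2 : ((good a b).card : ℝ) ≤
      ∑ σ : E →ₐ[ℚ] ℂ, (if 0 < (σ β).re ∧ (σ β).im = 0 then (1:ℝ) else 0) := by
    rw [Finset.sum_boole]
    norm_cast
    apply Finset.card_le_card
    intro φ hφ
    unfold good at hφ
    rw [Finset.mem_filter] at hφ ⊢
    refine ⟨Finset.mem_univ _, ?_⟩
    have h3 : φ β = ((Complex.normSq (φ a) : ℝ) : ℂ) := by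
      rw [hβ, map_mul, hφ.2, Complex.mul_conj]
    rw [h3, Complex.ofReal_re, Complex.ofReal_im]
    refine ⟨?_, rfl⟩
    rw [Complex.normSq_pos]
    exact (map_ne_zero φ).mpr ha
  have h3 : (((minpoly ℚ β).map (algebraMap ℚ ℂ)).roots.map
      (fun z => if 0 < z.re ∧ z.im = 0 then (1:ℝ) else 0)).sum =
        ((posPart (conjSet (AdjoinSimple.gen ℚ β))).card : ℝ) := by
    rw [← sum_gen β]
    unfold Pool.Agent.H389R3.LR.posPart conjSet
    rw [Finset.filter_image, Finset.card_image_of_injective _ (CInj_gen β), Finset.sum_boole]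
  rw [h3] at h1
  rw [← h1, mul_comm]
  gcongr

/-- **Core inequality.** -/
theorem core : ∃ c : ℝ, 0 < c ∧ ∀ (E : Type) [Field E] [NumberField E] (a b : E),
    IsIntegral ℤ a → a ≠ 0 → minpoly ℚ a = minpoly ℚ b →
    ∀ φ₀ : E →ₐ[ℚ] ℂ, φ₀ b = starRingEnd ℂ (φ₀ a) → ‖φ₀ a‖ ≠ 1 →
    ∀ r : ℝ, (finrank ℚ E : ℝ) ≤ r * (good a b).card →
    c * finrank ℚ E / (r ^ 2 * (Real.log (2 * r)) ^ 2) ≤ lam a := by
  obtain ⟨c0, hc0, hdob⟩ := dob
  obtain ⟨c, hc, hch⟩ := choice hc0
  refine ⟨c / 2, by positivity, ?_⟩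
  intro E _ _ a b ha ha0 hab φ₀ hφ₀ hne r hr
  classical
  have hbi : IsIntegral ℤ b := by
    have h1 : minpoly ℤ b = minpoly ℤ b := rfl
    have h2 : aeval b (minpoly ℤ a) = 0 := by
      have h3 : aeval b (minpoly ℚ a) = 0 := by rw [hab]; exact minpoly.aeval _ _
      rw [minpoly.isIntegrallyClosed_eq_field_fractions' ℚ ha, aeval_map_algebraMap] at h3
      exact h3
    exact ⟨minpoly ℤ a, minpoly.monic ha, by rw [← Polynomial.aeval_def]; exact h2⟩
  have hb0 : b ≠ 0 := by
    rintro rfl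
    rw [map_zero] at hφ₀
    have : φ₀ a = 0 := by
      have := congrArg (starRingEnd ℂ) hφ₀
      simpa using this.symm
    exact ha0 ((map_eq_zero φ₀).mp this)
  set β := a * b with hβ
  have hβi : IsIntegral ℤ β := ha.mul hbi
  have hβ0 : β ≠ 0 := mul_ne_zero ha0 hb0
  have hφβ : φ₀ β = ((‖φ₀ a‖ ^ 2 : ℝ) : ℂ) := by
    rw [hβ, map_mul, hφ₀, Complex.mul_conj, Complex.normSq_eq_norm_sq]
  have hβr : ∀ n : ℕ, 0 < n → β ^ n ≠ 1 := by
    intro n hn h
    have h1 := congrArg φ₀ h
    rw [map_pow, hφβ, map_one] at h1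
    have h2 : (‖φ₀ a‖ ^ 2) ^ n = 1 := by exact_mod_cast h1
    rw [← pow_mul] at h2
    exact hne ((pow_eq_one_iff_of_nonneg (norm_nonneg _) (by omega)).mp h2)
  -- the field generated by `β`
  set g : ℚ⟮β⟯ := AdjoinSimple.gen ℚ β with hg
  have hgβ : algebraMap ℚ⟮β⟯ E g = β := AdjoinSimple.algebraMap_gen ℚ β
  have hgi : IsIntegral ℤ g := by
    rw [← hgβ] at hβi
    exact (isIntegral_algebraMap_iff (algebraMap ℚ⟮β⟯ E).injective).mp hβi
  have hg0 : g ≠ 0 := by
    intro h
    rw [h, map_zero] at hgβ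
    exact hβ0 hgβ.symm
  have hgr : ∀ n : ℕ, 0 < n → g ^ n ≠ 1 := by
    intro n hn h
    apply hβr n hn
    rw [← hgβ, ← map_pow, h, map_one]
  have hFN : NumberField ℚ⟮β⟯ :=
    { to_charZero := inferInstance, to_finiteDimensional := inferInstance }
  have hN : finrank ℚ ℚ⟮β⟯ = (minpoly ℚ β).natDegree :=
    adjoin.finrank (Algebra.IsIntegral.isIntegral β)
  have h1 := field_bound hgi hg0 hgr
  have h2 := hdob ℚ⟮β⟯ g hgi hg0 hgr (CInj_gen β)
  rw [hN] at h1 h2
  have hcount := good_le (b := b) ha0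
  rw [← hβ] at hcount
  set N : ℝ := ((minpoly ℚ β).natDegree : ℝ) with hNdef
  set D : ℝ := (finrank ℚ E : ℝ) with hD
  set v : ℝ := ((good a b).card : ℝ) with hv
  set P : ℝ := ((posPart (conjSet g)).card : ℝ) with hP
  have hN1 : 1 ≤ N := by
    rw [hNdef]; exact_mod_cast natDegree_pos' β
  have hD1 : 1 ≤ D := by
    rw [hD]; exact_mod_cast (finrank_pos : 0 < finrank ℚ E)
  have hvD : v ≤ D := by
    rw [hv, hD]
    have : (good a b).card ≤ finrank ℚ E := by
      rw [← AlgHom.card ℚ E ℂ, ← Finset.card_univ]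
      exact Finset.card_le_card (Finset.filter_subset _ _)
    exact_mod_cast this
  have hv1 : 1 ≤ v := by
    rw [hv]
    have : 0 < (good a b).card := Finset.card_pos.mpr ⟨φ₀, by
      unfold good; rw [Finset.mem_filter]; exact ⟨Finset.mem_univ _, hφ₀⟩⟩
    exact_mod_cast this
  have hr1 : 1 ≤ r := by
    by_contra hcon
    push Not at hcon
    nlinarith
  have hlN : 0 < Real.log (2 * N) := Real.log_pos (by linarith)
  have hPN : N / r ≤ P := by
    rw [div_le_iff₀ (by linarith)]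
    have h3 : N * D ≤ N * (r * v) := by gcongr
    have h4 : v * N ≤ D * P := hcount
    have h5 : N * D ≤ r * (D * P) := by nlinarith
    have h6 : D * N ≤ D * (P * r) := by nlinarith
    exact le_of_mul_le_mul_left h6 (by linarith)
  have hNr : 0 ≤ N / r := by positivity
  -- the normalised height of `β`
  have hs1 : min (1 / r ^ 2) (N / (r ^ 4 * Real.log (2 * N))) ≤ 1064960 * (lam g / N) := by
    have h3 : N * min (1 / r ^ 2) (N / (r ^ 4 * Real.log (2 * N))) ≤ 1064960 * lam g := by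
      refine le_trans ?_ h1
      rw [mul_min_of_nonneg _ _ (by linarith)]
      apply min_le_min
      · have h4 : (N / r) ^ 2 ≤ P ^ 2 := pow_le_pow_left₀ hNr hPN 2
        rw [le_div_iff₀ (by linarith)]
        calc N * (1 / r ^ 2) * N = (N / r) ^ 2 := by ring
          _ ≤ P ^ 2 := h4
      · have h4 : (N / r) ^ 4 ≤ P ^ 4 := pow_le_pow_left₀ hNr hPN 4
        rw [le_div_iff₀ (by positivity)]
        have hlN' := hlN.ne'
        calc N * (N / (r ^ 4 * Real.log (2 * N))) * (N ^ 2 * Real.log (2 * N)) =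
            (N / r) ^ 4 * (Real.log (2 * N) / Real.log (2 * N)) := by ring
          _ = (N / r) ^ 4 := by rw [div_self hlN', mul_one]
          _ ≤ P ^ 4 := h4
    rw [← mul_div_assoc, le_div_iff₀ (by linarith)]
    linarith
  have hs2 : c0 / (N * (Real.log (2 * N)) ^ 3) ≤ lam g / N := by
    rw [le_div_iff₀ (by linarith)]
    refine le_trans (le_of_eq ?_) h2
    field_simp
  have hs := hch r N (lam g / N) hr1 hN1 hs1 hs2
  -- comparison of heights
  have hlamβ : N * lam β = D * lam g := by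
    have h3 := sum_eq β (fun z => Real.log (max 1 ‖z‖))
    have h4 := sum_gen β (fun z => Real.log (max 1 ‖z‖))
    rw [← h4] at h3
    exact h3
  have hle : lam β ≤ 2 * lam a := by
    have h3 := lam_mul_le a b
    rw [← lam_eq_of_minpoly hab] at h3
    rw [hβ]; linarith
  have h5 : lam g / N = lam β / D := by
    rw [div_eq_div_iff (by linarith) (by linarith)]
    linarith
  rw [h5] at hs
  have h6 : lam β / D ≤ 2 * lam a / D := by gcongr
  have h7 := hs.trans h6
  rw [le_div_iff₀ (by linarith)] at h7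
  calc c / 2 * D / (r ^ 2 * Real.log (2 * r) ^ 2) = (c / (r ^ 2 * Real.log (2 * r) ^ 2) * D) / 2 := by ring
    _ ≤ lam a := by linarith

end Pool.Agent.H92FC
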