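import Mathlib
import Pool.Agent.H92FC.Core

/-!
# Galois extensions with few complex conjugations
-/

set_option autoImplicit false

open Finset Polynomial Module IntermediateField

namespace Pool.Agent.H92FC

open Pool.Agent.H388SL Pool.Agent.H389R3.LR

/-- The automorphisms of `L` that are the complex conjugation with respect to some embedding of `L`
into the complex numbers. -/
def conjugations (L : Type) [Field L] [CharZero L] : Set (L ≃ₐ[ℚ] L) :=
  {σ | ∃ φ : L →+* ℂ, ∀ x, φ (σ x) = starRingEnd ℂ (φ x)}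

section
variable {L : Type} [Field L] [CharZero L]

/-- the index of the centralizer of a complex conjugation -/
lemma index_centralizer_le (hS : (conjugations L).Finite) {c₀ : L ≃ₐ[ℚ] L} {φ₀ : L →ₐ[ℚ] ℂ}
    (h0 : ∀ x, φ₀ (c₀ x) = starRingEnd ℂ (φ₀ x)) :
    (Subgroup.centralizer {c₀}).index ≤ (conjugations L).ncard ∧
      (Subgroup.centralizer {c₀}).index ≠ 0 := by
  classical
  set C := Subgroup.centralizer {c₀} with hC
  have hmem : ∀ σ : L ≃ₐ[ℚ] L, σ * c₀ * σ⁻¹ ∈ conjugations L := by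
    intro σ
    refine ⟨(φ₀.comp (σ⁻¹ : L ≃ₐ[ℚ] L).toAlgHom).toRingHom, fun x => ?_⟩
    change φ₀ (σ⁻¹ ((σ * c₀ * σ⁻¹) x)) = starRingEnd ℂ (φ₀ (σ⁻¹ x))
    rw [← h0]
    congr 1
    rw [← AlgEquiv.mul_apply, ← AlgEquiv.mul_apply]
    congr 1
    group
  let f : (L ≃ₐ[ℚ] L) ⧸ C → conjugations L := Quotient.lift
    (fun σ => ⟨σ * c₀ * σ⁻¹, hmem σ⟩) (by
      intro σ τ h
      have h1 : σ⁻¹ * τ ∈ C := QuotientGroup.leftRel_apply.mp h
      rw [hC, Subgroup.mem_centralizer_singleton_iff] at h1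
      apply Subtype.ext
      change σ * c₀ * σ⁻¹ = τ * c₀ * τ⁻¹
      have h2 : σ * (σ⁻¹ * τ * c₀) * τ⁻¹ = σ * (c₀ * (σ⁻¹ * τ)) * τ⁻¹ := by rw [h1]
      have e1 : σ * (σ⁻¹ * τ * c₀) * τ⁻¹ = τ * c₀ * τ⁻¹ := by group
      have e2 : σ * (c₀ * (σ⁻¹ * τ)) * τ⁻¹ = σ * c₀ * σ⁻¹ := by group
      rw [e1, e2] at h2
      exact h2.symm)
  have hf : Function.Injective f := by
    intro x y
    induction x using QuotientGroup.induction_on with | _ σ =>
    induction y using QuotientGroup.induction_on with | _ τ =>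
    intro h
    have h1 : σ * c₀ * σ⁻¹ = τ * c₀ * τ⁻¹ := congrArg Subtype.val h
    apply QuotientGroup.eq.mpr
    rw [hC, Subgroup.mem_centralizer_singleton_iff]
    have h2 : σ⁻¹ * (σ * c₀ * σ⁻¹) * τ = σ⁻¹ * (τ * c₀ * τ⁻¹) * τ := by rw [h1]
    have e1 : σ⁻¹ * (σ * c₀ * σ⁻¹) * τ = c₀ * (σ⁻¹ * τ) := by group
    have e2 : σ⁻¹ * (τ * c₀ * τ⁻¹) * τ = σ⁻¹ * τ * c₀ := by group
    rw [e1, e2] at h2
    exact h2.symm
  have hfin : Finite (conjugations L) := hS
  have hfq : Finite ((L ≃ₐ[ℚ] L) ⧸ C) := Finite.of_injective f hf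
  constructor
  · rw [Subgroup.index, ← Nat.card_coe_set_eq]
    exact Nat.card_le_card_of_injective f hf
  · rw [Subgroup.index]
    exact Nat.card_pos.ne'

/-- the embeddings that commute with the complex conjugation -/
lemma finrank_le (E : IntermediateField ℚ L) [IsGalois ℚ L] [NumberField E]
    (hS : (conjugations L).Finite) {c₀ : L ≃ₐ[ℚ] L} {φ₀ : L →ₐ[ℚ] ℂ}
    (h0 : ∀ x, φ₀ (c₀ x) = starRingEnd ℂ (φ₀ x)) (a b : E) (hab : (b : L) = c₀ (a : L)) :
    finrank ℚ E ≤ (conjugations L).ncard * (good a b).card := by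
  classical
  obtain ⟨hC1, hC2⟩ := index_centralizer_le hS h0
  set C := Subgroup.centralizer {c₀} with hC
  set H := E.fixingSubgroup with hH
  have hHi : finrank ℚ E = H.index := IntermediateField.finrank_eq_fixingSubgroup_index (E' := L) E
  -- the map from the centralizer
  have hmem : ∀ σ ∈ C, (φ₀.comp (σ : L ≃ₐ[ℚ] L).toAlgHom).comp E.val ∈ good a b := by
    intro σ hσ
    refine mem_good.mpr ?_
    change φ₀ (σ (b : L)) = starRingEnd ℂ (φ₀ (σ (a : L)))
    rw [← h0, hab]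
    congr 1
    rw [hC, Subgroup.mem_centralizer_singleton_iff] at hσ
    rw [← AlgEquiv.mul_apply, hσ, AlgEquiv.mul_apply]
  let f : C ⧸ (H.subgroupOf C) → good a b := Quotient.lift
    (fun σ : C => ⟨(φ₀.comp (σ : L ≃ₐ[ℚ] L).toAlgHom).comp E.val, hmem _ σ.2⟩) (by
      intro σ τ h
      have h1 : σ⁻¹ * τ ∈ H.subgroupOf C := QuotientGroup.leftRel_apply.mp h
      rw [Subgroup.mem_subgroupOf] at h1
      apply Subtype.ext
      apply AlgHom.ext
      intro x
      change φ₀ ((σ : L ≃ₐ[ℚ] L) (x : L)) = φ₀ ((τ : L ≃ₐ[ℚ] L) (x : L))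
      have h2 : (((σ⁻¹ * τ : C) : L ≃ₐ[ℚ] L)) (x : L) = x := h1 x
      have h3 : (τ : L ≃ₐ[ℚ] L) (x : L) = (σ : L ≃ₐ[ℚ] L) ((((σ⁻¹ * τ : C) : L ≃ₐ[ℚ] L)) (x : L)) := by
        rw [← AlgEquiv.mul_apply]
        congr 1
        simp
      rw [h3, h2])
  have hf : Function.Injective f := by
    intro x y
    induction x using QuotientGroup.induction_on with | _ σ =>
    induction y using QuotientGroup.induction_on with | _ τ =>
    intro h
    have h1 : (φ₀.comp (σ : L ≃ₐ[ℚ] L).toAlgHom).comp E.val =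
      (φ₀.comp (τ : L ≃ₐ[ℚ] L).toAlgHom).comp E.val := congrArg Subtype.val h
    apply QuotientGroup.eq.mpr
    rw [Subgroup.mem_subgroupOf]
    change ((σ⁻¹ * τ : C) : L ≃ₐ[ℚ] L) ∈ E.fixingSubgroup
    rw [IntermediateField.mem_fixingSubgroup_iff]
    intro x hx
    have h2 : φ₀ ((σ : L ≃ₐ[ℚ] L) x) = φ₀ ((τ : L ≃ₐ[ℚ] L) x) :=
      DFunLike.congr_fun h1 (⟨x, hx⟩ : E)
    have h3 := φ₀.toRingHom.injective h2
    rw [Subgroup.coe_mul, Subgroup.coe_inv, AlgEquiv.mul_apply, ← h3, ← AlgEquiv.mul_apply,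
      inv_mul_cancel, AlgEquiv.one_apply]
  have hfq : Finite (C ⧸ (H.subgroupOf C)) := Finite.of_injective f hf
  have h1 : H.relIndex C ≤ (good a b).card := by
    rw [Subgroup.relIndex, Subgroup.index]
    have := Nat.card_le_card_of_injective f hf
    rwa [Nat.card_eq_fintype_card (α := good a b), Fintype.card_coe] at this
  have h2 : H.relIndex C ≠ 0 := by
    rw [Subgroup.relIndex, Subgroup.index]
    exact Nat.card_pos.ne'
  have h3 : (H ⊓ C).index = H.relIndex C * C.index := by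
    rw [← Subgroup.relIndex_mul_index (inf_le_right : H ⊓ C ≤ C), Subgroup.inf_relIndex_right]
  have h4 : (H ⊓ C).FiniteIndex := ⟨by rw [h3]; exact Nat.mul_ne_zero h2 hC2⟩
  have h5 : H.index ≤ (H ⊓ C).index := Subgroup.index_antitone inf_le_left
  rw [hHi]
  refine h5.trans ?_
  rw [h3, mul_comm]
  exact Nat.mul_le_mul hC1 h1

end

/-- the Mahler measure of the minimal polynomial -/
noncomputable def mm {A : Type} [CommRing A] (x : A) : ℝ :=
  ((minpoly ℤ x).map (Int.castRingHom ℂ)).mahlerMeasure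

lemma log_mm {E : Type} [Field E] [NumberField E] {a : E} (ha : IsIntegral ℤ a) :
    Real.log (mm a) = (((minpoly ℚ a).map (algebraMap ℚ ℂ)).roots.map
      (fun z => Real.log (max 1 ‖z‖))).sum := by
  have h1 : (minpoly ℤ a).map (Int.castRingHom ℂ) = (minpoly ℚ a).map (algebraMap ℚ ℂ) := by
    rw [minpoly.isIntegrallyClosed_eq_field_fractions' ℚ ha, Polynomial.map_map]
    rfl
  have hm : ((minpoly ℚ a).map (algebraMap ℚ ℂ)).Monic :=
    (minpoly.monic (Algebra.IsIntegral.isIntegral a)).map _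
  rw [mm, h1, mahlerMeasure_eq_leadingCoeff_mul_prod_roots, hm.leadingCoeff, norm_one, one_mul]
  have key : ∀ s : Multiset ℂ, Real.log ((s.map (fun z => max 1 ‖z‖)).prod) =
      (s.map (fun z => Real.log (max 1 ‖z‖))).sum := by
    intro s
    induction s using Multiset.induction_on with
    | empty => simp
    | cons z s ih =>
      have h2 : 0 < (s.map (fun z : ℂ => max 1 ‖z‖)).prod := by
        apply Multiset.prod_pos
        intro x hx
        obtain ⟨z, _, rfl⟩ := Multiset.mem_map.mp hx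
        positivity
      rw [Multiset.map_cons, Multiset.prod_cons, Multiset.map_cons, Multiset.sum_cons,
        Real.log_mul (by positivity) h2.ne', ih]
  exact key _

lemma lam_mm {E : Type} [Field E] [NumberField E] {a : E} (ha : IsIntegral ℤ a) :
    ((minpoly ℤ a).natDegree : ℝ) * lam a = (finrank ℚ E : ℝ) * Real.log (mm a) := by
  rw [log_mm ha]
  have h1 : (minpoly ℤ a).natDegree = (minpoly ℚ a).natDegree := by
    rw [minpoly.isIntegrallyClosed_eq_field_fractions' ℚ ha]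
    exact (natDegree_map_eq_of_injective (algebraMap ℤ ℚ).injective_int _).symm
  rw [h1]
  exact sum_eq a (fun z => Real.log (max 1 ‖z‖))

lemma mm_map {A B : Type} [CommRing A] [CommRing B] (f : A →+* B)
    (hf : Function.Injective f) (x : A) : mm (f x) = mm x := by
  unfold mm
  rw [show f x = (f.toIntAlgHom) x from rfl, minpoly.algHom_eq f.toIntAlgHom hf x]

/-- transfer of the core inequality -/
lemma bound_mm {c : ℝ} {E : Type} [Field E] [NumberField E] {a : E} (ha : IsIntegral ℤ a) {X : ℝ}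
    (h : c * finrank ℚ E / X ≤ lam a) :
    c * (minpoly ℤ a).natDegree / X ≤ Real.log (mm a) := by
  have h1 := lam_mm ha
  have hD : (0:ℝ) < finrank ℚ E := by exact_mod_cast (finrank_pos : 0 < finrank ℚ E)
  have h2 : (0:ℝ) ≤ ((minpoly ℤ a).natDegree : ℝ) := Nat.cast_nonneg _
  have h3 := mul_le_mul_of_nonneg_left h h2
  rw [h1] at h3
  have h4 : (finrank ℚ E : ℝ) * (c * (minpoly ℤ a).natDegree / X) ≤
      (finrank ℚ E : ℝ) * Real.log (mm a) := by
    refine le_trans (le_of_eq ?_) h3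
    ring
  exact le_of_mul_le_mul_left h4 hD

/-- an embedding for which the absolute value is not one, and the complex conjugation -/
lemma exists_conj {L : Type} [Field L] [CharZero L] [IsGalois ℚ L] {a : L} (ha : IsIntegral ℤ a)
    (hr : ∀ n : ℕ, 0 < n → a ^ n ≠ 1) :
    ∃ (φ₀ : L →ₐ[ℚ] ℂ) (c₀ : L ≃ₐ[ℚ] L), ‖φ₀ a‖ ≠ 1 ∧
      ∀ x, φ₀ (c₀ x) = starRingEnd ℂ (φ₀ x) := by
  have haQ : IsIntegral ℚ a := ha.tower_top
  have hfin : FiniteDimensional ℚ ℚ⟮a⟯ := adjoin.finiteDimensional haQ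
  have hNF : NumberField ℚ⟮a⟯ := { to_charZero := inferInstance, to_finiteDimensional := hfin }
  have h1 : ∃ φ : ℚ⟮a⟯ →+* ℂ, ‖φ (AdjoinSimple.gen ℚ a)‖ ≠ 1 := by
    by_contra hcon
    push Not at hcon
    have hg : algebraMap ℚ⟮a⟯ L (AdjoinSimple.gen ℚ a) = a := AdjoinSimple.algebraMap_gen ℚ a
    have hgi : IsIntegral ℤ (AdjoinSimple.gen ℚ a) := by
      rw [← hg] at ha
      exact (isIntegral_algebraMap_iff (algebraMap ℚ⟮a⟯ L).injective).mp ha
    obtain ⟨n, hn, h2⟩ := NumberField.Embeddings.pow_eq_one_of_norm_eq_one ℚ⟮a⟯ ℂ hgi hcon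
    apply hr n hn
    have h3 := congrArg (algebraMap ℚ⟮a⟯ L) h2
    rwa [map_pow, hg, map_one] at h3
  obtain ⟨φ₁, h1⟩ := h1
  have hsur := IsAlgClosed.surjective_domRestrict_of_isAlgebraic (K := ℚ) (L := ℚ⟮a⟯) (M := ℂ) (E := L)
  obtain ⟨φ₀, hφ₀⟩ := hsur φ₁.toRatAlgHom
  have h2 : φ₀ a = φ₁ (AdjoinSimple.gen ℚ a) := by
    have := DFunLike.congr_fun hφ₀ (AdjoinSimple.gen ℚ a)
    exact this
  let _ : Algebra L ℂ := φ₀.toRingHom.toAlgebra
  have htow : IsScalarTower ℚ L ℂ := IsScalarTower.of_algebraMap_eq (fun x => by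
    change algebraMap ℚ ℂ x = φ₀ (algebraMap ℚ L x)
    rw [AlgHom.commutes])
  let ψ : L →ₐ[ℚ] ℂ := ((starRingEnd ℂ).comp φ₀.toRingHom).toRatAlgHom
  refine ⟨φ₀, Normal.algHomEquivAut ℚ ℂ L ψ, by rw [h2]; exact h1, fun x => ?_⟩
  have h3 := DFunLike.congr_fun ((Normal.algHomEquivAut ℚ ℂ L).left_inv ψ) x
  exact h3

/-- **Galois extensions with finitely many complex conjugations** -/
theorem galois_bound : ∃ c : ℝ, 0 < c ∧ ∀ (L : Type) [Field L] [CharZero L] [IsGalois ℚ L],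
    (conjugations L).Finite → ∀ a : L, IsIntegral ℤ a → a ≠ 0 → (∀ n : ℕ, 0 < n → a ^ n ≠ 1) →
    ∀ m : ℝ, m = (conjugations L).ncard →
    c * (minpoly ℤ a).natDegree / (m ^ 2 * (Real.log (2 * m)) ^ 2) ≤ Real.log (mm a) := by
  obtain ⟨c, hc, hcore⟩ := core
  refine ⟨c, hc, ?_⟩
  intro L _ _ _ hS a ha ha0 hr m hm
  obtain ⟨φ₀, c₀, hn, h0⟩ := exists_conj ha hr
  set E : IntermediateField ℚ L := adjoin ℚ {a, c₀ a} with hE
  have haQ : IsIntegral ℚ a := ha.tower_top
  have hcaQ : IsIntegral ℚ (c₀ a) := haQ.map c₀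
  have hfin : FiniteDimensional ℚ E := by
    have : Finite ({a, c₀ a} : Set L) := by
      exact Set.Finite.to_subtype (by simp)
    apply finiteDimensional_adjoin
    intro x hx
    rcases hx with rfl | hx
    · exact haQ
    · rw [Set.mem_singleton_iff] at hx
      rw [hx]; exact hcaQ
  have hNF : NumberField E := { to_charZero := inferInstance, to_finiteDimensional := hfin }
  have ma : a ∈ E := subset_adjoin ℚ _ (by simp)
  have mb : c₀ a ∈ E := subset_adjoin ℚ _ (by simp)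
  set a' : E := ⟨a, ma⟩ with ha'
  set b' : E := ⟨c₀ a, mb⟩ with hb'
  have hmina : minpoly ℚ a' = minpoly ℚ a := by
    have := minpoly.algebraMap_eq (A := ℚ) (B := E) (B' := L) (algebraMap E L).injective a'
    exact this.symm
  have hminb : minpoly ℚ b' = minpoly ℚ a := by
    have := minpoly.algebraMap_eq (A := ℚ) (B := E) (B' := L) (algebraMap E L).injective b'
    rw [← this]
    exact minpoly.algEquiv_eq c₀ a
  have hai : IsIntegral ℤ a' := by
    have h1 : algebraMap E L a' = a := rfl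
    rw [← h1] at ha
    exact (isIntegral_algebraMap_iff (algebraMap E L).injective).mp ha
  have ha0' : a' ≠ 0 := by
    intro h
    exact ha0 (congrArg Subtype.val h)
  have hle := finrank_le E hS h0 a' b' rfl
  have h1 := hcore E a' b' hai ha0' (by rw [hmina, hminb]) (φ₀.comp E.val) (h0 a) hn m (by
    rw [hm]; exact_mod_cast hle)
  have h2 := bound_mm hai h1
  have h3 : mm a = mm a' := mm_map (algebraMap E L) (algebraMap E L).injective a'
  have h4 : minpoly ℤ a = minpoly ℤ a' :=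
    minpoly.algHom_eq (algebraMap E L).toIntAlgHom (algebraMap E L).injective a'
  rw [h3, h4]
  exact h2

end Pool.Agent.H92FC
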