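import Mathlib
import Pool.Agent.H92FC.Gal

/-!
# Lehmer's problem and complex conjugations: integer polynomials
-/

set_option autoImplicit false

open Finset Polynomial Module IntermediateField

namespace Pool.Agent.H92FC

open Pool.Agent.H388SL Pool.Agent.H389R3.LR

/-- the field generated by `α` and its complex conjugate -/
noncomputable def pairField (α : ℂ) : IntermediateField ℚ ℂ := adjoin ℚ {α, starRingEnd ℂ α}

/-- the embeddings of `ℚ(α, conj α)` into `ℂ` that commute with the complex conjugation -/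
def commuting (α : ℂ) : Set (pairField α →+* ℂ) :=
  {φ | ∀ x y : pairField α, (y : ℂ) = starRingEnd ℂ x → φ y = starRingEnd ℂ (φ x)}

/-- the degree of `ℚ(α, conj α)` divided by the number of these embeddings -/
noncomputable def ratio (α : ℂ) : ℝ := finrank ℚ (pairField α) / (commuting α).ncard

/-- the field generated by the roots of `f` -/
noncomputable def rootField (f : ℤ[X]) : IntermediateField ℚ ℂ := adjoin ℚ {z : ℂ | aeval z f = 0}

/-- the number of complex conjugations in the Galois group of `f` -/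
noncomputable def numConj (f : ℤ[X]) : ℕ := (conjugations (rootField f)).ncard

theorem pair_bound : ∃ c : ℝ, 0 < c ∧ ∀ α : ℂ, IsIntegral ℤ α → α ≠ 0 → ‖α‖ ≠ 1 →
    c * (minpoly ℤ α).natDegree / (ratio α ^ 2 * (Real.log (2 * ratio α)) ^ 2) ≤
      Real.log (mm α) := by
  obtain ⟨c, hc, hcore⟩ := core
  refine ⟨c, hc, ?_⟩
  intro α ha ha0 hn
  have haQ : IsIntegral ℚ α := ha.tower_top
  have hci : IsIntegral ℤ (starRingEnd ℂ α) := ha.map (starRingEnd ℂ).toIntAlgHom
  have hcaQ : IsIntegral ℚ (starRingEnd ℂ α) := hci.tower_top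
  set E : IntermediateField ℚ ℂ := pairField α with hE
  have hfin : FiniteDimensional ℚ E := by
    have : Finite ({α, starRingEnd ℂ α} : Set ℂ) := by
      exact Set.Finite.to_subtype (by simp)
    rw [hE, pairField]
    apply finiteDimensional_adjoin
    intro x hx
    rcases hx with rfl | hx
    · exact haQ
    · rw [Set.mem_singleton_iff] at hx
      rw [hx]; exact hcaQ
  have hNF : NumberField E := { to_charZero := inferInstance, to_finiteDimensional := hfin }
  have ma : α ∈ E := subset_adjoin ℚ _ (by simp)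
  have mb : starRingEnd ℂ α ∈ E := subset_adjoin ℚ _ (by simp)
  set a' : E := ⟨α, ma⟩ with ha'
  set b' : E := ⟨starRingEnd ℂ α, mb⟩ with hb'
  have hmina : minpoly ℚ a' = minpoly ℚ α := by
    have := minpoly.algebraMap_eq (A := ℚ) (B := E) (B' := ℂ) (algebraMap E ℂ).injective a'
    exact this.symm
  have hminb : minpoly ℚ b' = minpoly ℚ α := by
    have := minpoly.algebraMap_eq (A := ℚ) (B := E) (B' := ℂ) (algebraMap E ℂ).injective b'
    rw [← this]
    exact minpoly.algHom_eq (starRingEnd ℂ).toRatAlgHom (starRingEnd ℂ).injective α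
  have hai : IsIntegral ℤ a' := by
    have h1 : algebraMap E ℂ a' = α := rfl
    rw [← h1] at ha
    exact (isIntegral_algebraMap_iff (algebraMap E ℂ).injective).mp ha
  have ha0' : a' ≠ 0 := by
    intro h
    exact ha0 (congrArg Subtype.val h)
  have hcard : (commuting α).ncard ≤ (good a' b').card := by
    rw [← Set.ncard_coe_finset]
    have hfin2 : ((good a' b' : Finset (E →ₐ[ℚ] ℂ)) : Set (E →ₐ[ℚ] ℂ)).Finite :=
      Finset.finite_toSet _
    refine Set.ncard_le_ncard_of_injOn (fun φ : E →+* ℂ => φ.toRatAlgHom) ?_ ?_ hfin2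
    · intro φ hφ
      exact mem_good.mpr (hφ a' b' rfl)
    · intro φ _ ψ _ h
      apply RingHom.ext
      intro x
      exact DFunLike.congr_fun h x
  have hpos : (0:ℝ) < (commuting α).ncard := by
    have hfin2 : (commuting α).Finite := Set.toFinite _
    have : 0 < (commuting α).ncard := by
      rw [Set.ncard_pos hfin2]
      exact ⟨E.val.toRingHom, fun x y h => h⟩
    exact_mod_cast this
  have h1 := hcore E a' b' hai ha0' (by rw [hmina, hminb]) E.val rfl hn (ratio α) (by
    have h2 : ((commuting α).ncard : ℝ) ≤ (good a' b').card := by exact_mod_cast hcard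
    have h3 : 0 ≤ ratio α := by unfold ratio; positivity
    calc (finrank ℚ E : ℝ) = ratio α * (commuting α).ncard := by
          rw [ratio, div_mul_cancel₀ _ hpos.ne']
      _ ≤ ratio α * (good a' b').card := by gcongr)
  have h2 := bound_mm hai h1
  have h3 : mm α = mm a' := mm_map (algebraMap E ℂ) (algebraMap E ℂ).injective a'
  have h4 : minpoly ℤ α = minpoly ℤ a' :=
    minpoly.algHom_eq (algebraMap E ℂ).toIntAlgHom (algebraMap E ℂ).injective a'
  rw [h3, h4]
  exact h2

lemma isGalois_rootField {f : ℤ[X]} (hf : f ≠ 0) :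
    IsGalois ℚ (rootField f) ∧ FiniteDimensional ℚ (rootField f) := by
  have h0 : f.map (algebraMap ℤ ℚ) ≠ 0 := by
    rwa [Ne, Polynomial.map_eq_zero_iff (algebraMap ℤ ℚ).injective_int]
  have hset : {z : ℂ | aeval z f = 0} = (f.map (algebraMap ℤ ℚ)).rootSet ℂ := by
    ext z
    rw [Set.mem_ofPred_eq, Polynomial.mem_rootSet_of_ne h0, aeval_map_algebraMap]
  have hs : (((f.map (algebraMap ℤ ℚ))).map (algebraMap ℚ ℂ)).Splits := IsAlgClosed.splits _
  have h1 : IsSplittingField ℚ (adjoin ℚ ((f.map (algebraMap ℤ ℚ)).rootSet ℂ))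
      (f.map (algebraMap ℤ ℚ)) := adjoin_rootSet_isSplittingField hs
  unfold rootField
  rw [hset]
  have h2 : Normal ℚ (adjoin ℚ ((f.map (algebraMap ℤ ℚ)).rootSet ℂ)) :=
    Normal.of_isSplittingField (f.map (algebraMap ℤ ℚ))
  refine ⟨⟨⟩, ?_⟩
  exact IsSplittingField.finiteDimensional _ (f.map (algebraMap ℤ ℚ))

/-- the Mahler measure of an integer polynomial -/
noncomputable def MMf (f : ℤ[X]) : ℝ := (f.map (Int.castRingHom ℂ)).mahlerMeasure

lemma minpoly_eq_of_monic {f : ℤ[X]} (hf : Irreducible f) (hm : f.Monic) {z : ℂ}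
    (hz : aeval z f = 0) : IsIntegral ℤ z ∧ minpoly ℤ z = f := by
  have hzi : IsIntegral ℤ z := ⟨f, hm, by rw [← Polynomial.aeval_def]; exact hz⟩
  refine ⟨hzi, ?_⟩
  have h1 := minpoly.isIntegrallyClosed_dvd hzi hz
  have h2 : Associated (minpoly ℤ z) f :=
    (minpoly.irreducible hzi).associated_of_dvd hf h1
  exact eq_of_monic_of_associated (minpoly.monic hzi) hm h2

theorem monic_bound : ∃ c : ℝ, 0 < c ∧ ∀ f : ℤ[X], Irreducible f → f.Monic → 1 < MMf f →
    (∀ α : ℂ, aeval α f = 0 → ‖α‖ ≠ 1 →
      c * f.natDegree / (ratio α ^ 2 * (Real.log (2 * ratio α)) ^ 2) ≤ Real.log (MMf f)) ∧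
    c * f.natDegree / ((numConj f : ℝ) ^ 2 * (Real.log (2 * numConj f)) ^ 2) ≤
      Real.log (MMf f) := by
  obtain ⟨c1, hc1, h1⟩ := pair_bound
  obtain ⟨c2, hc2, h2⟩ := galois_bound
  refine ⟨min c1 c2, by positivity, ?_⟩
  intro f hf hm hM
  have hdeg : f.natDegree ≠ 0 := by
    intro h
    have := hm.natDegree_eq_zero.mp h
    exact hf.not_isUnit (this ▸ isUnit_one)
  have hpos : 0 < Real.log (MMf f) := Real.log_pos hM
  constructor
  · intro α hα hn
    obtain ⟨hi, hmin⟩ := minpoly_eq_of_monic hf hm hα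
    have ha0 : α ≠ 0 := by
      intro h0
      rw [h0] at hmin
      have hX : (aeval (0:ℂ)) (X : ℤ[X]) = 0 := by simp
      have h3 : minpoly ℤ (0 : ℂ) = X := (minpoly_eq_of_monic Polynomial.irreducible_X
        Polynomial.monic_X hX).2
      rw [h3] at hmin
      have h4 : (X : ℂ[X]) = X - C 0 := by simp
      rw [MMf, ← hmin, Polynomial.map_X, h4, mahlerMeasure_X_sub_C] at hpos
      simp at hpos
    have h3 := h1 α hi ha0 hn
    rw [mm, hmin] at h3
    refine le_trans ?_ h3
    have : 0 ≤ (f.natDegree : ℝ) := Nat.cast_nonneg _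
    gcongr
    exact min_le_left _ _
  · obtain ⟨z, hz⟩ := IsAlgClosed.exists_aeval_eq_zero ℂ f (by
      intro h
      exact hdeg (natDegree_eq_of_degree_eq_some h))
    obtain ⟨hi, hmin⟩ := minpoly_eq_of_monic hf hm hz
    obtain ⟨hG, hF⟩ := isGalois_rootField hf.ne_zero
    have hNF : NumberField (rootField f) :=
      { to_charZero := inferInstance, to_finiteDimensional := hF }
    have hmem : z ∈ rootField f := subset_adjoin ℚ _ hz
    set a : rootField f := ⟨z, hmem⟩ with ha
    have haz : algebraMap (rootField f) ℂ a = z := rfl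
    have hai : IsIntegral ℤ a := by
      rw [← haz] at hi
      exact (isIntegral_algebraMap_iff (algebraMap (rootField f) ℂ).injective).mp hi
    have hmina : minpoly ℤ a = f := by
      exact ((minpoly.algebraMap_eq (algebraMap (rootField f) ℂ).injective a).symm).trans hmin
    have hmma : mm a = MMf f := by rw [mm, hmina, MMf]
    have hlam := lam_mm hai
    rw [hmma, hmina] at hlam
    have hfr : (0:ℝ) < finrank ℚ (rootField f) := by
      exact_mod_cast (finrank_pos : 0 < finrank ℚ (rootField f))
    have hlampos : 0 < lam a := by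
      have h3 : 0 < (f.natDegree : ℝ) * lam a := by rw [hlam]; positivity
      exact (mul_pos_iff_of_pos_left (by exact_mod_cast Nat.pos_of_ne_zero hdeg)).mp h3
    have ha0 : a ≠ 0 := by
      intro h
      rw [h] at hlampos
      unfold lam at hlampos
      simp at hlampos
    have har : ∀ n : ℕ, 0 < n → a ^ n ≠ 1 := by
      intro n hn h
      have h3 := lam_pow a n
      rw [h] at h3
      have h4 : lam (1 : rootField f) = 0 := by unfold lam; simp
      rw [h4] at h3
      have h5 : (0:ℝ) < n := by exact_mod_cast hn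
      have : 0 < (n:ℝ) * lam a := mul_pos h5 hlampos
      linarith
    have hS : (conjugations (rootField f)).Finite := Set.toFinite _
    have h3 := h2 (rootField f) hS a hai ha0 har _ rfl
    rw [hmma, hmina] at h3
    refine le_trans ?_ h3
    have : 0 ≤ (f.natDegree : ℝ) := Nat.cast_nonneg _
    unfold numConj
    gcongr
    exact min_le_right _ _

lemma MMf_neg (f : ℤ[X]) : MMf (-f) = MMf f := by
  have h : -f = C (-1) * f := by simp
  rw [MMf, h, Polynomial.map_mul, mahlerMeasure_mul, Polynomial.map_C, mahlerMeasure_const]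
  simp [MMf]

lemma numConj_neg (f : ℤ[X]) : numConj (-f) = numConj f := by
  have h : rootField (-f) = rootField f := by
    unfold rootField
    congr 1
    ext z
    simp
  have key : ∀ K K' : IntermediateField ℚ ℂ, K = K' →
      (conjugations K).ncard = (conjugations K').ncard := by
    rintro _ _ rfl; rfl
  exact key _ _ h

/-- **Lehmer's problem for polynomials with few complex conjugations.** -/
theorem final : ∃ c : ℝ, 0 < c ∧ ∀ f : ℤ[X], Irreducible f → 1 < MMf f →
    (∀ α : ℂ, aeval α f = 0 → ‖α‖ ≠ 1 →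
      min 2 (Real.exp (c * f.natDegree / (ratio α ^ 2 * (Real.log (2 * ratio α)) ^ 2))) ≤ MMf f) ∧
    min 2 (Real.exp (c * f.natDegree / ((numConj f : ℝ) ^ 2 *
      (Real.log (2 * numConj f)) ^ 2))) ≤ MMf f := by
  obtain ⟨c, hc, h⟩ := monic_bound
  refine ⟨c, hc, ?_⟩
  intro f hf hM
  rcases le_or_gt 2 (MMf f) with h2 | h2
  · exact ⟨fun α _ _ => (min_le_left _ _).trans h2, (min_le_left _ _).trans h2⟩
  have hM0 : 0 < MMf f := by linarith
  have hinj : Function.Injective (Int.castRingHom ℂ) := RingHom.injective_int _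
  have hlead := leadingCoeff_le_mahlerMeasure (f.map (Int.castRingHom ℂ))
  rw [Polynomial.leadingCoeff_map_of_injective hinj, eq_intCast, Complex.norm_intCast] at hlead
  have hl0 : f.leadingCoeff ≠ 0 := leadingCoeff_ne_zero.mpr hf.ne_zero
  have habs := Int.one_le_abs hl0
  have h1 : |f.leadingCoeff| = 1 := by
    rcases lt_or_eq_of_le habs with h3 | h3
    · exfalso
      have h4 : (2:ℝ) ≤ |(f.leadingCoeff : ℝ)| := by
        have : (2:ℤ) ≤ |f.leadingCoeff| := h3
        exact_mod_cast this
      have h5 : (2:ℝ) ≤ MMf f := h4.trans hlead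
      linarith
    · exact h3.symm
  rcases (abs_eq (zero_le_one' ℤ)).mp h1 with h3 | h3
  · obtain ⟨ha, hb⟩ := h f hf h3 hM
    exact ⟨fun α hα hn => (min_le_right _ _).trans ((Real.le_log_iff_exp_le hM0).mp (ha α hα hn)),
      (min_le_right _ _).trans ((Real.le_log_iff_exp_le hM0).mp hb)⟩
  · obtain ⟨ha, hb⟩ := h (-f)
      ((Associated.irreducible_iff (Associated.neg_left (Associated.refl f))).mpr hf)
      (by rw [Monic, leadingCoeff_neg, h3]; rfl) (by rw [MMf_neg]; exact hM)
    rw [numConj_neg, MMf_neg, natDegree_neg] at hb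
    refine ⟨fun α hα hn => ?_, (min_le_right _ _).trans ((Real.le_log_iff_exp_le hM0).mp hb)⟩
    have h5 := ha α (by rw [map_neg, hα, neg_zero]) hn
    rw [MMf_neg, natDegree_neg] at h5
    exact (min_le_right _ _).trans ((Real.le_log_iff_exp_le hM0).mp h5)

end Pool.Agent.H92FC
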